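import Pool.Agent.H538R2.SRO.Defs

/-! Task T11: the hypergraph function has small branching programs without time restriction. -/

namespace Pool.Agent.H538R2.SRO

open Finset

namespace T11aux

theorem walk_append {ι V : Type} (G : NBP ι V) {u v w : V} {l l' : List G.E}
    (h : G.IsWalk u v l) (h' : G.IsWalk v w l') : G.IsWalk u w (l ++ l') := by
  induction l generalizing u with
  | nil =>
    have : u = v := h
    subst this
    exact h'
  | cons e l ih => exact ⟨h.1, ih h.2⟩

variable {ι Sg : Type}

/-- one step of an oblivious program: a variable and an update -/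
abbrev Stp (ι Sg : Type) := ι × (Sg → Bool → Sg)

/-- run an oblivious program -/
def run (z : ι → Bool) (P : List (Stp ι Sg)) (s : Sg) : Sg :=
  P.foldl (fun s st => st.2 s (z st.1)) s

theorem run_append (z : ι → Bool) (P Q : List (Stp ι Sg)) (s : Sg) :
    run z (P ++ Q) s = run z Q (run z P s) := by
  unfold run; rw [List.foldl_append]

/-- the branching program of an oblivious program -/
def obl (P : List (Stp ι Sg)) (s0 : Sg) (fin : Sg → Prop) :
    NBP ι ((Fin (P.length + 1) × Sg) ⊕ Unit) where
  E := (Fin P.length × Sg × Bool) ⊕ {s : Sg // fin s}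
  src := fun e => match e with
    | Sum.inl (k, s, _) => Sum.inl (k.castSucc, s)
    | Sum.inr s => Sum.inl (Fin.last _, s.1)
  tgt := fun e => match e with
    | Sum.inl (k, s, b) => Sum.inl (k.succ, (P.get k).2 s b)
    | Sum.inr _ => Sum.inr ()
  lab := fun e => match e with
    | Sum.inl (k, _, b) => some ((P.get k).1, b)
    | Sum.inr _ => none
  start := Sum.inl (0, s0)
  accept := Sum.inr ()

/-- reading edges -/
def eI (P : List (Stp ι Sg)) (s0 : Sg) (fin : Sg → Prop) (k : Fin P.length) (s : Sg) (b : Bool) :
    (obl P s0 fin).E := Sum.inl (k, s, b)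

/-- final edges -/
def eR (P : List (Stp ι Sg)) (s0 : Sg) (fin : Sg → Prop) (s : {s : Sg // fin s}) :
    (obl P s0 fin).E := Sum.inr s

/-- the state after `k` steps -/
def st (z : ι → Bool) (P : List (Stp ι Sg)) (s0 : Sg) (k : ℕ) : Sg := run z (P.take k) s0

theorem st_succ (z : ι → Bool) (P : List (Stp ι Sg)) (s0 : Sg) (k : Fin P.length) :
    st z P s0 (k.val + 1) = (P.get k).2 (st z P s0 k.val) (z (P.get k).1) := by
  unfold st
  rw [List.take_add_one, run_append]
  have : P[k.val]? = some (P.get k) := by
    rw [List.getElem?_eq_getElem k.2]; rfl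
  rw [this]
  rfl

theorem obl_complete (z : ι → Bool) (P : List (Stp ι Sg)) (s0 : Sg) (fin : Sg → Prop) (k : ℕ)
    (hk : k < P.length + 1) : ∃ l, (obl P s0 fin).IsWalk (Sum.inl (0, s0))
      (Sum.inl (⟨k, hk⟩, st z P s0 k)) l ∧ (obl P s0 fin).Agrees z l := by
  induction k with
  | zero =>
    refine ⟨[], ?_, ?_⟩
    · show (Sum.inl (0, s0) : (Fin (P.length + 1) × Sg) ⊕ Unit) = _
      rfl
    · intro e he; simp at he
  | succ k ih =>
    obtain ⟨l, h1, h2⟩ := ih (by omega)
    have hk' : k < P.length := by omega
    refine ⟨l ++ [eI P s0 fin ⟨k, hk'⟩ (st z P s0 k) (z (P.get ⟨k, hk'⟩).1)], ?_, ?_⟩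
    · apply walk_append _ h1
      refine ⟨rfl, ?_⟩
      show (Sum.inl ((⟨k, hk'⟩ : Fin P.length).succ, (P.get ⟨k, hk'⟩).2 (st z P s0 k)
        (z (P.get ⟨k, hk'⟩).1)) : (Fin (P.length + 1) × Sg) ⊕ Unit) = _
      rw [← st_succ z P s0 ⟨k, hk'⟩]
      rfl
    · intro e he i b hlab
      rcases List.mem_append.mp he with h | h
      · exact h2 e h i b hlab
      · rw [List.mem_singleton] at h
        subst h
        have : some ((P.get ⟨k, hk'⟩).1, z (P.get ⟨k, hk'⟩).1) = some (i, b) := hlab
        obtain ⟨rfl, rfl⟩ := Prod.mk.inj (Option.some.inj this)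
        rfl

theorem obl_sound (z : ι → Bool) (P : List (Stp ι Sg)) (s0 : Sg) (fin : Sg → Prop)
    (l : List (obl P s0 fin).E) : ∀ (k : ℕ) (hk : k < P.length + 1),
      (obl P s0 fin).IsWalk (Sum.inl (⟨k, hk⟩, st z P s0 k)) (Sum.inr ()) l →
      (obl P s0 fin).Agrees z l → fin (st z P s0 P.length) := by
  induction l with
  | nil =>
    intro k hk h
    exact absurd h (by unfold NBP.IsWalk; simp)
  | cons e l ih =>
    intro k hk h hA
    obtain ⟨h1, h2⟩ := h
    rcases e with ⟨k', s, b⟩ | s
    · have h1' : (Sum.inl (k'.castSucc, s) : (Fin (P.length + 1) × Sg) ⊕ Unit) =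
          Sum.inl (⟨k, hk⟩, st z P s0 k) := h1
      obtain ⟨e1, e2⟩ := Prod.mk.inj (Sum.inl.inj h1')
      have e3 : k'.val = k := congrArg Fin.val e1
      have hb : z (P.get k').1 = b := hA (Sum.inl (k', s, b)) (List.mem_cons_self) _ _ rfl
      have ht : (obl P s0 fin).tgt (Sum.inl (k', s, b)) =
          Sum.inl (⟨k + 1, by have := k'.2; omega⟩, st z P s0 (k + 1)) := by
        show (Sum.inl (k'.succ, (P.get k').2 s b) : (Fin (P.length + 1) × Sg) ⊕ Unit) = _
        subst e3
        rw [st_succ z P s0 k', ← e2, hb]
        rfl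
      rw [ht] at h2
      exact ih (k + 1) _ h2 (fun e he => hA e (List.mem_cons_of_mem _ he))
    · have h1' : (Sum.inl (Fin.last _, s.1) : (Fin (P.length + 1) × Sg) ⊕ Unit) =
          Sum.inl (⟨k, hk⟩, st z P s0 k) := h1
      obtain ⟨e1, e2⟩ := Prod.mk.inj (Sum.inl.inj h1')
      have e3 : P.length = k := congrArg Fin.val e1
      have := s.2
      rw [e2, ← e3] at this
      exact this

theorem obl_iff (z : ι → Bool) (P : List (Stp ι Sg)) (s0 : Sg) (fin : Sg → Prop) :
    (∃ l, (obl P s0 fin).AccComp z l) ↔ fin (run z P s0) := by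
  have hst : st z P s0 P.length = run z P s0 := by
    unfold st; rw [List.take_length]
  constructor
  · rintro ⟨l, h1, h2⟩
    rw [← hst]
    exact obl_sound z P s0 fin l 0 (by omega) h1 h2
  · intro h
    obtain ⟨l, h1, h2⟩ := obl_complete z P s0 fin P.length (by omega)
    rw [← hst] at h
    refine ⟨l ++ [eR P s0 fin ⟨_, h⟩], ?_, ?_⟩
    · exact walk_append _ h1 ⟨rfl, rfl⟩
    · intro e he i b hlab
      rcases List.mem_append.mp he with h' | h'
      · exact h2 e h' i b hlab
      · rw [List.mem_singleton] at h'
        subst h'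
        have hn : (none : Option (ι × Bool)) = some (i, b) := hlab
        exact absurd hn (by simp)

/-- the states: parity of `U`, parity of the finished hyperedges, the current hyperedge -/
abbrev S3 := Bool × Bool × Bool

/-- read a vertex for the parity of `U` -/
def stU {n : ℕ} (i : Fin n) : Stp (Var n) S3 := (Sum.inl i, fun s b => (xor s.1 b, s.2.1, s.2.2))

/-- read a hyperedge variable -/
def stH {n : ℕ} (S : {S : Finset (Fin n) // S.card = 4}) : Stp (Var n) S3 :=
  (Sum.inr S, fun s b => (s.1, xor s.2.1 s.2.2, b))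

/-- read a vertex of the current hyperedge -/
def stV {n : ℕ} (i : Fin n) : Stp (Var n) S3 := (Sum.inl i, fun s b => (s.1, s.2.1, s.2.2 && b))

/-- the block of a hyperedge -/
noncomputable def blk {n : ℕ} (S : {S : Finset (Fin n) // S.card = 4}) : List (Stp (Var n) S3) :=
  stH S :: S.1.toList.map stV

theorem run_U {n : ℕ} (z : Var n → Bool) (l : List (Fin n)) (p e c : Bool) :
    run z (l.map stU) (p, e, c) =
      (xor p (decide (Odd (l.countP fun i => z (Sum.inl i)))), e, c) := by
  induction l generalizing p with
  | nil => simp [run]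
  | cons i l ih =>
    rw [List.map_cons]
    show run z (l.map stU) (xor p (z (Sum.inl i)), e, c) = _
    rw [ih, List.countP_cons]
    congr 1
    cases h : z (Sum.inl i) <;> by_cases h2 : Odd (l.countP fun i => z (Sum.inl i)) <;>
      simp [h2, Nat.odd_add_one]

theorem run_V {n : ℕ} (z : Var n → Bool) (l : List (Fin n)) (p e c : Bool) :
    run z (l.map stV) (p, e, c) = (p, e, c && l.all fun i => z (Sum.inl i)) := by
  induction l generalizing c with
  | nil => simp [run]
  | cons i l ih =>
    rw [List.map_cons]
    show run z (l.map stV) (p, e, c && z (Sum.inl i)) = _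
    rw [ih, List.all_cons, Bool.and_assoc]

/-- the hyperedge `S` is present and contained in `U` -/
noncomputable def gS {n : ℕ} (z : Var n → Bool) (S : {S : Finset (Fin n) // S.card = 4}) : Bool :=
  z (Sum.inr S) && S.1.toList.all fun i => z (Sum.inl i)

theorem run_blk {n : ℕ} (z : Var n → Bool) (S : {S : Finset (Fin n) // S.card = 4})
    (p e c : Bool) : run z (blk S) (p, e, c) = (p, xor e c, gS z S) := by
  show run z (S.1.toList.map stV) (p, xor e c, z (Sum.inr S)) = _
  rw [run_V]
  rfl

theorem run_L {n : ℕ} (z : Var n → Bool) (L : List {S : Finset (Fin n) // S.card = 4})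
    (p e c : Bool) : (run z (L.flatMap blk) (p, e, c)).1 = p ∧
      xor (run z (L.flatMap blk) (p, e, c)).2.1 (run z (L.flatMap blk) (p, e, c)).2.2 =
        xor (xor e c) (decide (Odd (L.countP (gS z)))) := by
  induction L generalizing e c with
  | nil => simp [run]
  | cons S L ih =>
    rw [List.flatMap_cons, run_append, run_blk]
    obtain ⟨h1, h2⟩ := ih (xor e c) (gS z S)
    refine ⟨h1, ?_⟩
    rw [h2, List.countP_cons]
    cases h : gS z S <;> by_cases h2 : Odd (L.countP (gS z)) <;>
      simp [h2, Nat.odd_add_one]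

theorem card_filter_toList {α : Type} [DecidableEq α] (s : Finset α) (p : α → Bool) :
    (s.filter fun a => p a = true).card = s.toList.countP p := by
  rw [Finset.card_def, Finset.filter_val, ← Multiset.countP_eq_card_filter, ← Finset.coe_toList,
    Multiset.coe_countP]
  simp

end T11aux

open T11aux in
theorem hyp_upper (n : ℕ) : ∃ (V : Type) (_ : Fintype V) (G : NBP (Var n) V),
    Fintype.card V ≤ 40 * (n + 1) ^ 4 ∧ ∀ z, (∃ l, G.AccComp z l) ↔ HypFun n z := by
  classical
  set LS : List {S : Finset (Fin n) // S.card = 4} := Finset.univ.toList with hLS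
  set P : List (Stp (Var n) S3) := (Finset.univ : Finset (Fin n)).toList.map stU ++
    LS.flatMap blk with hP
  refine ⟨(Fin (P.length + 1) × S3) ⊕ Unit, inferInstance,
    obl P (false, false, false) (fun s => s.1 = false ∧ xor s.2.1 s.2.2 = true), ?_, ?_⟩
  · have hlen : P.length = n + 5 * n.choose 4 := by
      rw [hP, List.length_append, List.length_map, Finset.length_toList, Finset.card_univ,
        Fintype.card_fin, List.length_flatMap]
      have : ∀ S : {S : Finset (Fin n) // S.card = 4}, (blk S).length = 5 := fun S => by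
        unfold blk
        rw [List.length_cons, List.length_map, Finset.length_toList, S.2]
      have h2 : (LS.map fun S => (blk S).length) = LS.map fun _ => 5 :=
        List.map_congr_left fun S _ => this S
      rw [h2, List.map_const', List.sum_replicate, hLS, Finset.length_toList, Finset.card_univ,
        Fintype.card_finset_len, Fintype.card_fin]
      simp [mul_comm]
    rw [Fintype.card_sum, Fintype.card_prod, Fintype.card_fin, hlen]
    have h1 : Fintype.card S3 = 8 := by decide
    rw [h1, Fintype.card_unit]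
    have h2 := Nat.choose_le_pow n 4
    have h3 : (n + 1) ^ 4 = n ^ 4 + 4 * n ^ 3 + 6 * n ^ 2 + 4 * n + 1 := by ring
    rw [h3]
    have h4 : 0 ≤ n ^ 3 := Nat.zero_le _
    have h5 : 0 ≤ n ^ 2 := Nat.zero_le _
    omega
  · intro z
    rw [obl_iff]
    have hrun : run z P (false, false, false) = run z (LS.flatMap blk)
        (decide (Odd ((Finset.univ : Finset (Fin n)).toList.countP fun i => z (Sum.inl i))),
          false, false) := by
      rw [hP, run_append, run_U]
      simp
    obtain ⟨r1, r2⟩ := run_L z LS
      (decide (Odd ((Finset.univ : Finset (Fin n)).toList.countP fun i => z (Sum.inl i))))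
      false false
    rw [hrun]
    show (_ = false ∧ _ = true) ↔ _
    rw [r1, r2]
    unfold HypFun
    have c1 : (Finset.univ.filter fun i : Fin n => z (Sum.inl i) = true).card =
        (Finset.univ : Finset (Fin n)).toList.countP fun i => z (Sum.inl i) :=
      card_filter_toList _ _
    have c2 : (Finset.univ.filter fun S : {S : Finset (Fin n) // S.card = 4} =>
        z (Sum.inr S) = true ∧ ∀ i ∈ S.1, z (Sum.inl i) = true).card = LS.countP (gS z) := by
      rw [hLS, ← card_filter_toList]
      congr 1
      ext S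
      simp only [Finset.mem_filter, Finset.mem_univ, true_and]
      unfold gS
      simp
    rw [c1, c2, ← Nat.not_odd_iff_even]
    simp

end Pool.Agent.H538R2.SRO
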